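import Pool.Agent.BOG.Stmts

/-! Squad BOG, row VNC: `J (J + 1)` linear conditions at every point. -/

set_option autoImplicit false

namespace Pool.Agent.BOG.H20

open Polynomial Finset

universe v

section
variable {K : Type v} [Field K]

/-- a Taylor coefficient at the point `Y` -/
noncomputable def tc (Y : K × K) (a b : ℕ) : K[X][X] →ₗ[K] K where
  toFun F := (taylor Y.2 ((taylor (C Y.1) F).coeff a)).coeff b
  map_add' F G := by
    rw [map_add, coeff_add, map_add, coeff_add]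
  map_smul' r F := by
    have h : (taylor (C Y.1)) (r • F) = r • taylor (C Y.1) F :=
      LinearMap.map_smul_of_tower _ _ _
    rw [h, coeff_smul, map_smul, coeff_smul]
    rfl

/-- the combination `θ i - c θ 2` -/
noncomputable def pr (i : Fin 3) (c : K) : (Fin 3 → K[X][X]) →ₗ[K] K[X][X] where
  toFun θ := θ i - C (C c) * θ 2
  map_add' θ η := by
    simp only [Pi.add_apply]
    ring
  map_smul' r θ := by
    simp only [Pi.smul_apply, mul_smul_comm, smul_sub, RingHom.id_apply]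

theorem van_of_tc {J : ℕ} {Y : K × K} {F : K[X][X]}
    (h : ∀ a < J, ∀ b < J - a, tc Y a b F = 0) : Van J Y F := by
  intro a ha
  rw [X_sub_C_pow_dvd_iff, ← taylor_apply, X_pow_dvd_iff]
  exact h a ha

end

theorem sum_J (J : ℕ) : 2 * ∑ a ∈ range J, (J - a) = J * (J + 1) := by
  induction J with
  | zero => simp
  | succ J ih =>
    rw [sum_range_succ']
    have h : ∀ a, J + 1 - (a + 1) = J - a := fun a => by omega
    simp only [h, Nat.sub_zero]
    rw [mul_add, ih]
    ring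

theorem vnc (fdm : FdmStmt.{v}) (cut : CutStmt.{v, v}) : VncStmt.{v} := by
  intro K _ d S J
  obtain ⟨-, -, hf1, hf2⟩ := fdm K 0 Fin.elim0 Fin.elim0 0 d
  obtain ⟨φ, hφ⟩ : ∃ φ : (Fin 3 → TD K d) →ₗ[K] (Fin 3 → K[X][X]), ∀ g a, φ g a = (g a : K[X][X]) :=
    ⟨LinearMap.pi fun a => (TD K d).subtype.comp (LinearMap.proj a), fun _ _ => rfl⟩
  have hinj : Function.Injective φ := by
    intro g g' h
    funext a
    have h1 := congrFun h a
    rw [hφ, hφ] at h1
    exact Subtype.ext h1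
  obtain ⟨U0, hU0⟩ : ∃ U0 : Submodule K (Fin 3 → K[X][X]), U0 = LinearMap.range φ := ⟨_, rfl⟩
  have hfin : Module.Finite K U0 := by
    rw [hU0]
    infer_instance
  have hfree : Module.Free K (TD K d) := Module.Free.of_divisionRing K (TD K d)
  have hdim : Module.finrank K U0 = 3 * (d + 1).choose 2 := by
    rw [hU0, LinearMap.finrank_range_of_inj hinj, Module.finrank_pi_fintype, Finset.sum_const,
      Finset.card_univ, Fintype.card_fin, hf2, smul_eq_mul]
  have hmem : ∀ θ ∈ U0, ∀ a, θ a ∈ TD K d := by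
    intro θ hθ a
    rw [hU0] at hθ
    obtain ⟨g, rfl⟩ := hθ
    rw [hφ]
    exact (g a).2
  -- the index set
  obtain ⟨s, hs⟩ : ∃ s : Finset (Σ _ : K × K, Fin 3 × Σ _ : ℕ, ℕ),
      s = S.sigma fun Y => (({0, 1} : Finset (Fin 3)) ×ˢ
        ((range (J Y)).sigma fun a => range (J Y - a))) := ⟨_, rfl⟩
  obtain ⟨f, hf⟩ : ∃ f : (Σ _ : K × K, Fin 3 × Σ _ : ℕ, ℕ) → (Fin 3 → K[X][X]) →ₗ[K] K,
      ∀ i, f i = (tc i.1 i.2.2.1 i.2.2.2).comp (pr i.2.1 (if i.2.1 = 0 then i.1.1 else i.1.2)) :=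
    ⟨_, fun _ => rfl⟩
  have hcut := cut K (Fin 3 → K[X][X]) K U0 _ s f (fun _ => 1) (fun i _ => by
    refine le_trans (Submodule.finrank_le _) ?_
    rw [Module.finrank_self])
  have hcard : ∑ _i ∈ s, 1 = ∑ Y ∈ S, J Y * (J Y + 1) := by
    rw [← card_eq_sum_ones, hs, card_sigma]
    refine Finset.sum_congr rfl fun Y _ => ?_
    rw [card_product, card_sigma, ← sum_J]
    simp
  refine ⟨U0 ⊓ ⨅ i ∈ s, LinearMap.ker (f i), Submodule.finiteDimensional_of_le inf_le_left, ?_, ?_⟩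
  · intro θ hθ
    obtain ⟨h1, h2⟩ := Submodule.mem_inf.1 hθ
    have h3 : ∀ i ∈ s, f i θ = 0 := by
      intro i hi
      have h4 := (Submodule.mem_iInf _).1 h2 i
      have h5 := (Submodule.mem_iInf _).1 h4 hi
      exact LinearMap.mem_ker.1 h5
    have h6 : ∀ Y ∈ S, ∀ e ∈ ({0, 1} : Finset (Fin 3)), ∀ a < J Y, ∀ b < J Y - a,
        tc Y a b (pr e (if e = 0 then Y.1 else Y.2) θ) = 0 := by
      intro Y hY e he a ha b hb
      have h7 := h3 ⟨Y, e, ⟨a, b⟩⟩ (by
        rw [hs, mem_sigma]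
        refine ⟨hY, ?_⟩
        rw [mem_product]
        refine ⟨he, ?_⟩
        rw [mem_sigma]
        exact ⟨mem_range.2 ha, mem_range.2 hb⟩)
      rw [hf] at h7
      exact h7
    refine ⟨hmem θ h1, fun Y hY => ⟨van_of_tc fun a ha b hb => ?_, van_of_tc fun a ha b hb => ?_⟩⟩
    · have h8 := h6 Y hY 0 (by simp) a ha b hb
      rw [if_pos rfl] at h8
      exact h8
    · have h8 := h6 Y hY 1 (by simp) a ha b hb
      rw [if_neg (by decide)] at h8
      exact h8
  · rw [← hdim, ← hcard]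
    exact hcut

end Pool.Agent.BOG.H20
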